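import Pool.Agent.Helper51.Tors.FromTorsion

set_option autoImplicit false

namespace Pool.Agent.Results.MP_30ac48_nt.LargestElement

open Pool.Agent.Helper51.Tors

/-- normal form with positive parameters -/
lemma normal_form {a b c u v w d : ℤ} (h : Data a b c u v w d) (ha : 0 < a) (hab : a < b)
    (hbc : b < c) :
    ∃ p q m : ℕ, 0 < p ∧ 0 < q ∧ 0 < m ∧
      b * (c - a) = (m : ℤ) ^ 2 * ((p + q) ^ 3 * (3 * p + q)) ∧
      c * (b - a) = (m : ℤ) ^ 2 * ((2 * p + q) ^ 3 * q) := by
  -- the case `0 < u + v`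
  have key : ∀ u v w : ℤ, Data a b c u v w d → 0 < u + v →
      ∃ p q m : ℕ, 0 < p ∧ 0 < q ∧ 0 < m ∧
      b * (c - a) = (m : ℤ) ^ 2 * ((p + q) ^ 3 * (3 * p + q)) ∧
      c * (b - a) = (m : ℤ) ^ 2 * ((2 * p + q) ^ 3 * q) := by
    intro u v w h hs
    have hw : w = -u - v := by linear_combination h.hsum
    have e1 := h.h1
    have e2 := h.h2
    have e3 := h.h3
    rw [hw] at e1 e2 e3
    have hd : d ≠ 0 := by
      rintro rfl
      have : a * (c - b) = 0 := by rw [e1]; ring
      have h2 : 0 < a * (c - b) := mul_pos ha (by linarith)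
      linarith
    have hd2 : 0 < d ^ 2 := by positivity
    have h3 : 0 < d ^ 2 * ((u + v) ^ 3 * (v - u)) := by
      have : c * (b - a) = d ^ 2 * ((u + v) ^ 3 * (v - u)) := by rw [e3]; ring
      rw [← this]
      exact mul_pos (by linarith) (by linarith)
    have huv : 0 < v - u := by
      have h4 : 0 < (u + v) ^ 3 * (v - u) := (mul_pos_iff_of_pos_left hd2).1 h3
      exact (mul_pos_iff_of_pos_left (pow_pos hs 3)).1 h4
    have hv : 0 < v := by linarith
    have h1 : 0 < d ^ 2 * (u ^ 3 * (u + 2 * v)) := by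
      have : a * (c - b) = d ^ 2 * (u ^ 3 * (u + 2 * v)) := by rw [e1]; ring
      rw [← this]
      exact mul_pos ha (by linarith)
    have hu : 0 < u := by
      have h4 : 0 < u ^ 3 * (u + 2 * v) := (mul_pos_iff_of_pos_left hd2).1 h1
      have h5 : 0 < u + 2 * v := by linarith
      have h6 : 0 < u ^ 3 := (mul_pos_iff_of_pos_right h5).1 h4
      by_contra hneg
      have h7 : 0 ≤ (-u) ^ 3 := pow_nonneg (by linarith) 3
      have h8 : (-u) ^ 3 = -u ^ 3 := by ring
      linarith
    have p1 : ((u.toNat : ℕ) : ℤ) = u := Int.toNat_of_nonneg hu.le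
    have p2 : (((v - u).toNat : ℕ) : ℤ) = v - u := Int.toNat_of_nonneg huv.le
    have p3 : ((d.natAbs : ℕ) : ℤ) ^ 2 = d ^ 2 := Int.natAbs_sq d
    refine ⟨u.toNat, (v - u).toNat, d.natAbs, by omega, by omega, Int.natAbs_pos.2 hd, ?_, ?_⟩
    · rw [p1, p2, p3]
      linear_combination -e2
    · rw [p1, p2, p3]
      linear_combination e3
  rcases lt_trichotomy (u + v) 0 with hs | hs | hs
  · refine key (-u) (-v) (-w) ⟨by linear_combination -h.hsum, ?_, ?_, ?_, ?_⟩ (by linarith)
    · obtain ⟨s, t, hst⟩ := h.hcop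
      exact ⟨-s, -t, by linear_combination hst⟩
    · linear_combination h.h1
    · linear_combination h.h2
    · linear_combination h.h3
  · exfalso
    have hw : w = 0 := by linear_combination h.hsum - hs
    have : c * (b - a) = 0 := by rw [h.h3, hw]; ring
    have h2 : 0 < c * (b - a) := mul_pos (by linarith) (by linarith)
    linarith
  · exact key u v w h hs

/-- the same in natural numbers -/
lemma normal_form_nat {a b c : ℕ} {u v w d : ℤ} (h : Data (a : ℤ) b c u v w d) (ha : 0 < a)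
    (hab : a < b) (hbc : b < c) :
    ∃ p q m : ℕ, 0 < p ∧ 0 < q ∧ 0 < m ∧
      b * (c - a) = m ^ 2 * ((p + q) ^ 3 * (3 * p + q)) ∧
      c * (b - a) = m ^ 2 * ((2 * p + q) ^ 3 * q) := by
  obtain ⟨p, q, m, hp, hq, hm, e1, e2⟩ := normal_form h (by exact_mod_cast ha)
    (by exact_mod_cast hab) (by exact_mod_cast hbc)
  refine ⟨p, q, m, hp, hq, hm, ?_, ?_⟩
  · have : ((c - a : ℕ) : ℤ) = (c : ℤ) - a := by push_cast [Nat.cast_sub (hab.trans hbc).le]; ring
    zify
    rw [this]
    exact e1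
  · have : ((b - a : ℕ) : ℤ) = (b : ℤ) - a := by push_cast [Nat.cast_sub hab.le]; ring
    zify
    rw [this]
    exact e2

/-- **Theorem.** If `0 < a < b < c` and the curve `y² = (x+bc)(x+ac)(x+ab)` has rational torsion
`ℤ/2 × ℤ/6`, then the product of the primes dividing `c` is less than `√(c(b-a))`. -/
theorem result (a b c : ℕ) (ha : 0 < a) (hab : a < b) (hbc : b < c)
    (htors : Nonempty
        (↥(AddCommGroup.torsion
            (WeierstrassCurve.mk (0 : ℚ)
              ((a : ℚ) * b + (a : ℚ) * c + (b : ℚ) * c) 0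
              ((a : ℚ) * b * c * ((a : ℚ) + b + c))
              (((a : ℚ) * b * c) ^ 2)).toAffine.Point)
          ≃+ (ZMod 2 × ZMod 6))) :
    (∏ p ∈ c.primeFactors, p) ^ 2 < c * (b - a) := by
  obtain ⟨u, v, w, d, h⟩ := data_of_torsion a b c htors
  obtain ⟨p, q, m, hp, hq, hm, -, e2⟩ := normal_form_nat h ha hab hbc
  have hdvd : (∏ ℓ ∈ c.primeFactors, ℓ) ∣ m * ((2 * p + q) * q) := by
    apply Finset.prod_primes_dvd
    · intro ℓ hℓ
      exact (Nat.prime_of_mem_primeFactors hℓ).prime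
    · intro ℓ hℓ
      have hpr := Nat.prime_of_mem_primeFactors hℓ
      have h1 : ℓ ∣ m ^ 2 * ((2 * p + q) ^ 3 * q) :=
        e2 ▸ ((Nat.dvd_of_mem_primeFactors hℓ).mul_right _)
      rcases hpr.dvd_mul.1 h1 with h | h
      · exact (hpr.dvd_of_dvd_pow h).mul_right _
      · rcases hpr.dvd_mul.1 h with h | h
        · exact ((hpr.dvd_of_dvd_pow h).mul_right q).mul_left m
        · exact (h.mul_left _).mul_left m
  have hle := Nat.le_of_dvd (by positivity) hdvd
  calc (∏ ℓ ∈ c.primeFactors, ℓ) ^ 2 ≤ (m * ((2 * p + q) * q)) ^ 2 := Nat.pow_le_pow_left hle 2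
    _ = (m ^ 2 * (2 * p + q) ^ 2 * q) * q := by ring
    _ < (m ^ 2 * (2 * p + q) ^ 2 * q) * (2 * p + q) :=
        Nat.mul_lt_mul_of_pos_left (by omega) (by positivity)
    _ = m ^ 2 * ((2 * p + q) ^ 3 * q) := by ring
    _ = c * (b - a) := e2.symm

end Pool.Agent.Results.MP_30ac48_nt.LargestElement
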