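import Pool.Agent.Helper1.Layered.Embed
import Pool.Agent.Helper1.Layered.Tree

/-!
# Layered oriented trees in digraphs of large chromatic number
-/

set_option autoImplicit false

namespace Pool.Agent.Results.MP_35582f_co.LayeredTrees

open Finset Pool.Helper1.Layered
open scoped Classical

/-- The theorem when the layered part has an arc or the height is `0`. -/
theorem aux (k r ρ : ℕ) (T : Digraph (Fin (k + 1)))
    (hT : ∀ a b : Fin (k + 1), T.Adj a b → ¬ T.Adj b a)
    (htree : (SimpleGraph.fromRel T.Adj).IsTree)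
    (X : Set (Fin (k + 1))) (hX : ((SimpleGraph.fromRel T.Adj).induce X).Connected)
    (hρ : ∀ w : Fin (k + 1), ∃ x ∈ X, (SimpleGraph.fromRel T.Adj).dist w x ≤ ρ)
    (h : Fin (k + 1) → ℕ) (hhr : ∀ a ∈ X, h a ≤ r)
    (hhT : ∀ a ∈ X, ∀ b ∈ X, T.Adj a b → h b = h a + 1)
    (N : ℕ → ℕ)
    (hN : ∀ j ≤ ρ, {w | ∃ x ∈ X, (SimpleGraph.fromRel T.Adj).dist w x ≤ j}.ncard ≤ N j)
    (hN0 : r = 0 ∨ 2 ≤ N 0)
    (V : Type) [Fintype V] (D : Digraph V)
    (hchi : ((r * (4 * N 0 - 7) + ∑ j ∈ Icc 1 ρ, (4 * N j - 6) + 1 : ℕ) : ℕ∞) ≤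
        (SimpleGraph.fromRel D.Adj).chromaticNumber) :
      ∃ f : Fin (k + 1) → V, Function.Injective f ∧
        ∀ a b : Fin (k + 1), T.Adj a b → D.Adj (f a) (f b) := by
  obtain ⟨t, ht⟩ : ∃ t : ℕ → ℕ, t = fun m => N (ρ - m) - 1 := ⟨_, rfl⟩
  have hsum : ∑ j ∈ Icc 1 ρ, (4 * N j - 6) = ∑ j ∈ range ρ, (4 * t j - 2) := by
    rw [ht]
    have h1 : ∑ j ∈ Icc 1 ρ, (4 * N j - 6) = ∑ j ∈ range ρ, (4 * N (j + 1) - 6) := by
      have h0 : Icc 1 ρ = Ico (0 + 1) (ρ + 1) := by
        ext x
        rw [mem_Icc, mem_Ico]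
        omega
      rw [Finset.range_eq_Ico, h0, ← Finset.sum_Ico_add' (fun j => 4 * N j - 6) 0 ρ 1]
    rw [h1, ← Finset.sum_range_reflect]
    apply Finset.sum_congr rfl
    intro j hj
    have hj' := mem_range.1 hj
    have h2 : ρ - 1 - j + 1 = ρ - j := by omega
    rw [h2]
    change 4 * N (ρ - j) - 6 = 4 * (N (ρ - j) - 1) - 2
    omega
  have hcolr : 4 * N 0 - 7 = 4 * (N 0 - 1) - 3 := by omega
  rw [hsum, hcolr] at hchi
  -- no colouring with fewer colours
  have hncol : ∀ c : V → ℕ,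
      (∀ v, c v < r * (4 * (N 0 - 1) - 3) + ∑ j ∈ range ρ, (4 * t j - 2)) →
      (∀ u v, D.Adj u v ∧ u ≠ v → c u ≠ c v) → False := by
    intro c hc1 hc2
    have hcol : (SimpleGraph.fromRel D.Adj).Colorable
        (r * (4 * (N 0 - 1) - 3) + ∑ j ∈ range ρ, (4 * t j - 2)) := by
      refine ⟨SimpleGraph.Coloring.mk (fun v => ⟨c v, hc1 v⟩) ?_⟩
      intro u v huv heq
      have heq' : c u = c v := by simpa using heq
      rw [SimpleGraph.fromRel_adj] at huv
      rcases huv.2 with h1 | h1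
      · exact hc2 u v ⟨h1, huv.1⟩ heq'
      · exact hc2 v u ⟨h1, huv.1.symm⟩ heq'.symm
    have := le_trans hchi hcol.chromaticNumber_le
    have := Nat.cast_le.1 this
    omega
  obtain ⟨R, hR⟩ : ∃ R : V → V → Prop, R = fun u v => D.Adj u v ∧ u ≠ v := ⟨_, rfl⟩
  have hirr : ∀ v, ¬ R v v := by
    intro v hv; rw [hR] at hv; exact hv.2 rfl
  obtain ⟨root, p, d, e, hroot, hp, hpX, heX, heρ, he, hedist, hde⟩ :=
    exists_parents_rel (SimpleGraph.fromRel T.Adj) htree X hX ρ hρ
  have hcover := cover_of_parents (SimpleGraph.fromRel T.Adj) htree root p d hp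
  -- the stuck system in the last level
  have hsys : (∃ v, v ∈ lev R t ρ) ∧ (r = 0 ∨ ∃ S : Finset (ℕ × V × V),
      (∀ i u v, (i, u, v) ∈ S → i < r ∧ R u v ∧ u ∈ lev R t ρ ∧ v ∈ lev R t ρ) ∧
      S.Nonempty ∧ Stuck (N 0 - 1) r S) := by
    constructor
    · by_contra hcon
      push Not at hcon
      obtain ⟨c, hc1, hc2⟩ := col_lev R hirr t ρ (r * (4 * (N 0 - 1) - 3))
        ⟨fun _ => 0, fun v hv => absurd hv (hcon v), fun u hu => absurd hu (hcon u)⟩
      exact hncol c hc1 (fun u v huv => hc2 u v (by rw [hR]; exact huv))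
    · by_contra hcon
      push Not at hcon
      obtain ⟨hr0, hcon⟩ := hcon
      have hN2 : 2 ≤ N 0 := by
        rcases hN0 with h1 | h1
        · exact absurd h1 hr0
        · exact h1
      obtain ⟨c0, h1, h2⟩ := colouring (N 0 - 1) r (by omega) (by omega)
        (fun u v => R u v ∧ u ∈ lev R t ρ ∧ v ∈ lev R t ρ) (fun v hv => hirr v hv.1) hcon
      obtain ⟨c, hc1, hc2⟩ := col_lev R hirr t ρ (r * (4 * (N 0 - 1) - 3))
        ⟨c0, fun v _ => h1 v, fun u hu v hv huv => h2 u v ⟨huv, hu, hv⟩⟩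
      exact hncol c hc1 (fun u v huv => hc2 u v (by rw [hR]; exact huv))
  obtain ⟨⟨v0, hv0⟩, hsys⟩ := hsys
  obtain ⟨S, hS1, hS2, hS3⟩ : ∃ S : Finset (ℕ × V × V),
      (∀ i u v, (i, u, v) ∈ S → i < r ∧ R u v ∧ u ∈ lev R t ρ ∧ v ∈ lev R t ρ) ∧
      (r = 0 ∨ S.Nonempty) ∧ Stuck (N 0 - 1) r S := by
    rcases hsys with h0 | ⟨S, h1, h2, h3⟩
    · refine ⟨∅, by simp, Or.inl h0, ?_⟩
      refine ⟨by simp, by simp, by simp⟩
    · exact ⟨S, h1, Or.inr h2, h3⟩
  -- the embedding
  have hadj : ∀ i, i ≠ root → T.Adj (p i) i ∨ T.Adj i (p i) := by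
    intro i hi
    have := (hp i hi).2
    rw [SimpleGraph.fromRel_adj] at this
    exact this.2.symm
  obtain ⟨φ, hφ1, hφ2⟩ := greedy root p d
    (fun i hi => (hp i hi).1) (fun i => N (e i) - 1)
    (by
      intro i hi
      have h1 := hN (e i) (heρ i)
      have h2 : insert i (univ.filter (fun j => j ≠ i ∧ d j ≤ d i)) ⊆
          ({w | ∃ x ∈ X, (SimpleGraph.fromRel T.Adj).dist w x ≤ e i} :
            Set (Fin (k + 1))).toFinset := by
        intro j hj
        rw [Set.mem_toFinset]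
        obtain ⟨x, hx, hxe⟩ := hedist j
        refine ⟨x, hx, ?_⟩
        rw [hxe]
        rcases mem_insert.1 hj with h3 | h3
        · rw [h3]
        · exact hde i j (mem_filter.1 h3).2.2
      have h3 := card_le_card h2
      rw [card_insert_of_notMem (by simp), ← Set.ncard_eq_toFinset_card'] at h3
      have h5 : (univ.filter (fun j => j ≠ i ∧ d j ≤ d i)).card ≤ N (e i) - 1 := by omega
      convert h5)
    (fun i v => if i ∈ X then v ∈ lev R t ρ ∧ Alive r S (h i) v else v ∈ lev R t (ρ - e i))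
    (fun i u z => (T.Adj (p i) i → R u z) ∧ (T.Adj i (p i) → R z u))
    (by
      rcases hS2 with h0 | hne
      · refine ⟨v0, ?_⟩
        simp only [if_pos hroot]
        refine ⟨hv0, ?_, ?_⟩
        · intro h1; omega
        · intro j hj
          have := hhr root hroot
          omega
      · obtain ⟨v, hv, i, u, w, hS, hor⟩ := exists_alive hS3 (fun i u v h => (hS1 i u v h).1) hne
          (h root) (hhr root hroot)
        refine ⟨v, ?_⟩
        simp only [if_pos hroot]
        refine ⟨?_, hv⟩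
        rcases hor with rfl | rfl
        · exact (hS1 _ _ _ hS).2.2.1
        · exact (hS1 _ _ _ hS).2.2.2)
    (by
      intro i hir u hu
      by_cases hi : i ∈ X
      · -- inside X
        have hpi := hpX i hi hir
        simp only [if_pos hpi] at hu
        simp only [if_pos hi, heX i hi]
        rcases hadj i hir with h1 | h1
        · have hlev := hhT _ hpi _ hi h1
          have hri := hhr i hi
          have hne := hu.2.1 (by omega)
          refine ⟨univ.filter (fun v => (h (p i), u, v) ∈ S), hS3.1 _ _ hne, ?_, ?_⟩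
          · intro hmem
            exact hirr u (hS1 _ _ _ (mem_filter.1 hmem).2).2.1
          · intro z hz
            have hzS := (mem_filter.1 hz).2
            refine ⟨⟨(hS1 _ _ _ hzS).2.2.2, ?_⟩, fun _ => (hS1 _ _ _ hzS).2.1,
              fun h2 => absurd h2 (hT _ _ h1)⟩
            rw [hlev]; exact Alive.up hS3 hzS
        · have hlev := hhT _ hi _ hpi h1
          have hne := hu.2.2 (h i) hlev
          refine ⟨univ.filter (fun v => (h i, v, u) ∈ S), hS3.2.1 _ _ hne, ?_, ?_⟩
          · intro hmem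
            exact hirr u (hS1 _ _ _ (mem_filter.1 hmem).2).2.1
          · intro z hz
            have hzS := (mem_filter.1 hz).2
            exact ⟨⟨(hS1 _ _ _ hzS).2.2.1, Alive.down hS3 (hS1 _ _ _ hzS).1 hzS⟩,
              fun h2 => absurd h2 (hT _ _ h1), fun _ => (hS1 _ _ _ hzS).2.1⟩
      · -- outside X
        have hei := he i hi
        have hei' := heρ i
        obtain ⟨m, hm⟩ : ∃ m, ρ - e i = m := ⟨_, rfl⟩
        have hm' : ρ - e (p i) = m + 1 := by omega
        have hu' : u ∈ lev R t (m + 1) := by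
          by_cases hpi : p i ∈ X
          · simp only [if_pos hpi] at hu
            have := heX _ hpi
            have h3 : ρ = m + 1 := by omega
            rw [← h3]; exact hu.1
          · simp only [if_neg hpi] at hu
            rw [← hm']; exact hu
        simp only [if_neg hi, hm]
        have hu2 := (mem_filter.1 hu').2
        have htm : t m = N (e i) - 1 := by
          rw [ht]
          have h4 : ρ - m = e i := by omega
          simp only [h4]
        rw [htm] at hu2
        rcases hadj i hir with h1 | h1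
        · refine ⟨(lev R t m).filter (fun w => R u w), hu2.1, ?_, ?_⟩
          · intro hmem
            exact hirr u (mem_filter.1 hmem).2
          · intro z hz
            exact ⟨(mem_filter.1 hz).1, fun _ => (mem_filter.1 hz).2,
              fun h2 => absurd h2 (hT _ _ h1)⟩
        · refine ⟨(lev R t m).filter (fun w => R w u), hu2.2, ?_, ?_⟩
          · intro hmem
            exact hirr u (mem_filter.1 hmem).2
          · intro z hz
            exact ⟨(mem_filter.1 hz).1, fun h2 => absurd h2 (hT _ _ h1),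
              fun _ => (mem_filter.1 hz).2⟩)
  refine ⟨φ, hφ1, ?_⟩
  intro a b hab
  have hGab : (SimpleGraph.fromRel T.Adj).Adj a b := by
    rw [SimpleGraph.fromRel_adj]
    refine ⟨?_, Or.inl hab⟩
    rintro rfl
    exact hT _ _ hab hab
  obtain ⟨i, hi, hor⟩ := hcover a b hGab
  obtain ⟨h1, h2⟩ := hφ2 i hi
  rw [hR] at h1 h2
  rcases hor with ⟨h3, h4⟩ | ⟨h3, h4⟩
  · rw [h4, h3] at h2
    exact (h2 hab).1
  · rw [h4, h3] at h1
    exact (h1 hab).1

/-- Let `T` be an oriented tree with `k` arcs, `X` the vertex set of a subtree of `T` with a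
height function `h : X → {0, …, r}` (`h b = h a + 1` for every arc `(a, b)` inside `X`), every
vertex of `T` at distance at most `ρ` from `X`, and at most `N j` vertices of `T` at distance at
most `j` from `X`. Then every digraph of chromatic number at least
`r (4 N₀ - 7) + ∑_{j=1}^ρ (4 N_j - 6) + 1` contains `T`. -/
theorem result : ∀ (k r ρ : ℕ) (T : Digraph (Fin (k + 1))),
    (∀ a b : Fin (k + 1), T.Adj a b → ¬ T.Adj b a) →
    (SimpleGraph.fromRel T.Adj).IsTree →
    ∀ X : Set (Fin (k + 1)), ((SimpleGraph.fromRel T.Adj).induce X).Connected →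
    (∀ w : Fin (k + 1), ∃ x ∈ X, (SimpleGraph.fromRel T.Adj).dist w x ≤ ρ) →
    ∀ h : Fin (k + 1) → ℕ, (∀ a ∈ X, h a ≤ r) →
    (∀ a ∈ X, ∀ b ∈ X, T.Adj a b → h b = h a + 1) →
    ∀ N : ℕ → ℕ,
    (∀ j ≤ ρ, {w | ∃ x ∈ X, (SimpleGraph.fromRel T.Adj).dist w x ≤ j}.ncard ≤ N j) →
    ∀ (V : Type) [Fintype V] (D : Digraph V),
      ((r * (4 * N 0 - 7) + ∑ j ∈ Icc 1 ρ, (4 * N j - 6) + 1 : ℕ) : ℕ∞) ≤
        (SimpleGraph.fromRel D.Adj).chromaticNumber →
      ∃ f : Fin (k + 1) → V, Function.Injective f ∧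
        ∀ a b : Fin (k + 1), T.Adj a b → D.Adj (f a) (f b) := by
  intro k r ρ T hT htree X hX hρ h hhr hhT N hN V _ D hchi
  by_cases hN0 : r = 0 ∨ 2 ≤ N 0
  · exact aux k r ρ T hT htree X hX hρ h hhr hhT N hN hN0 V D hchi
  · push Not at hN0
    -- a single vertex: the height may be taken to be zero
    have h0 := hN 0 (Nat.zero_le _)
    have hsub : X ⊆ {w | ∃ x ∈ X, (SimpleGraph.fromRel T.Adj).dist w x ≤ 0} := by
      intro w hw
      exact ⟨w, hw, by rw [SimpleGraph.dist_self]⟩
    have hXcard : X.ncard ≤ 1 := by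
      have := Set.ncard_le_ncard hsub (Set.toFinite _)
      omega
    have hXone : ∀ a ∈ X, ∀ b ∈ X, a = b := by
      intro a ha b hb
      exact (Set.ncard_le_one (Set.toFinite X)).1 hXcard a ha b hb
    refine aux k 0 ρ T hT htree X hX hρ (fun _ => 0) (fun _ _ => le_rfl) ?_ N hN (Or.inl rfl) V D ?_
    · intro a ha b hb hab
      have := hXone a ha b hb
      subst this
      exact absurd hab (hT _ _ hab)
    · refine le_trans ?_ hchi
      apply Nat.cast_le.2
      have : 4 * N 0 - 7 = 0 := by omega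
      rw [this]
      simp

end Pool.Agent.Results.MP_35582f_co.LayeredTrees
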