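import Pool.Agent.Helper1.DubProd.Main

/-!
# Semisimplicity of the big quantum cohomology of a product of Fano manifolds
-/

open Pool.Agent.Helper18.Dub Pool.Agent.Helper1.DubProd

namespace Pool.Agent.Results.MP_78bf89_ag.ProductFormula

/-- Let `X`, `Y` be Fano manifolds without odd cohomology, and `Z` the genus-zero theory of
`X × Y`. The rank of the trace form of the generic big quantum cohomology algebra (the number of its
characters) is multiplicative, `s(X × Y) = s(X) s(Y)`; and the big quantum cohomology of `X × Y` is
generically semisimple if and only if that of `X` and that of `Y` are. -/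
theorem result {ι₁ ι₂ : Type} [Fintype ι₁] [DecidableEq ι₁] [Fintype ι₂] [DecidableEq ι₂]
    (X : FanoGW ι₁) (Y : FanoGW ι₂) (Z : FanoGW (ι₁ × ι₂)) (h : IsProduct X Y Z) :
    traceRank Z = traceRank X * traceRank Y ∧
      (Z.IsGenericallySemisimple ↔ X.IsGenericallySemisimple ∧ Y.IsGenericallySemisimple) :=
  ⟨h.traceRank_eq, h.isGenericallySemisimple_iff⟩

end Pool.Agent.Results.MP_78bf89_ag.ProductFormula
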